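import Mathlib

namespace Pool.Agent.Results.MP_98688b_an.Unbounded

open Filter Topology

universe u

/-- A Banach bimodule structure on `X` over `A`: jointly continuous left and right actions. -/
structure Bimod (A : Type) [NonUnitalNormedRing A] [NormedSpace ℂ A]
    (X : Type u) [NormedAddCommGroup X] [NormedSpace ℂ X] where
  left : A →L[ℂ] X →L[ℂ] X
  right : A →L[ℂ] X →L[ℂ] X
  left_mul : ∀ a b x, left (a * b) x = left a (left b x)
  right_mul : ∀ a b x, right (a * b) x = right b (right a x)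
  left_right : ∀ a b x, left a (right b x) = right b (left a x)

section Defs

variable {A : Type} [NonUnitalNormedRing A] [NormedSpace ℂ A]

/-- Left action on the dual: `(a·f)(x) = f(x·a)`. -/
noncomputable def dualL {X : Type u} [NormedAddCommGroup X] [NormedSpace ℂ X]
    (M : Bimod A X) : A →L[ℂ] (X →L[ℂ] ℂ) →L[ℂ] (X →L[ℂ] ℂ) :=
  (ContinuousLinearMap.compL ℂ X X ℂ).flip ∘L M.right

/-- Right action on the dual: `(f·a)(x) = f(a·x)`. -/
noncomputable def dualR {X : Type u} [NormedAddCommGroup X] [NormedSpace ℂ X]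
    (M : Bimod A X) : A →L[ℂ] (X →L[ℂ] ℂ) →L[ℂ] (X →L[ℂ] ℂ) :=
  (ContinuousLinearMap.compL ℂ X X ℂ).flip ∘L M.left

theorem dualL_mul {X : Type u} [NormedAddCommGroup X] [NormedSpace ℂ X]
    (M : Bimod A X) (a b : A) (f : X →L[ℂ] ℂ) : dualL M (a * b) f = dualL M a (dualL M b f) := by
  ext x
  simp [dualL, M.right_mul]

theorem dualR_mul {X : Type u} [NormedAddCommGroup X] [NormedSpace ℂ X]
    (M : Bimod A X) (a b : A) (f : X →L[ℂ] ℂ) : dualR M (a * b) f = dualR M b (dualR M a f) := by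
  ext x
  simp [dualR, M.left_mul]

theorem dualLR {X : Type u} [NormedAddCommGroup X] [NormedSpace ℂ X]
    (M : Bimod A X) (a b : A) (f : X →L[ℂ] ℂ) :
    dualL M a (dualR M b f) = dualR M b (dualL M a f) := by
  ext x
  simp [dualL, dualR, M.left_right]

/-- The dual bimodule: `(a·f)(x) = f(x·a)` and `(f·a)(x) = f(a·x)`. -/
noncomputable def Bimod.dual {X : Type u} [NormedAddCommGroup X] [NormedSpace ℂ X]
    (M : Bimod A X) : Bimod A (X →L[ℂ] ℂ) where
  left := dualL M
  right := dualR M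
  left_mul := dualL_mul M
  right_mul := dualR_mul M
  left_right := dualLR M

@[simp] lemma dual_left {X : Type u} [NormedAddCommGroup X] [NormedSpace ℂ X]
    (M : Bimod A X) (a : A) (f : X →L[ℂ] ℂ) (x : X) : M.dual.left a f x = f (M.right a x) := rfl

@[simp] lemma dual_right {X : Type u} [NormedAddCommGroup X] [NormedSpace ℂ X]
    (M : Bimod A X) (a : A) (f : X →L[ℂ] ℂ) (x : X) : M.dual.right a f x = f (M.left a x) := rfl

/-- `D` is a derivation into the bimodule `Y`. -/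
def IsDerivation {Y : Type u} [NormedAddCommGroup Y] [NormedSpace ℂ Y]
    (M : Bimod A Y) (D : A →L[ℂ] Y) : Prop :=
  ∀ a b, D (a * b) = M.left a (D b) + M.right b (D a)

/-- `D` is approximately semi-inner. -/
def ApproxSemiInner {Y : Type u} [NormedAddCommGroup Y] [NormedSpace ℂ Y]
    (M : Bimod A Y) (D : A →L[ℂ] Y) : Prop :=
  ∃ (ι : Type) (_ : Preorder ι) (_ : IsDirected ι (· ≤ ·)) (_ : Nonempty ι) (ξ η : ι → Y),
    ∀ a, Tendsto (fun i => M.left a (ξ i) - M.right a (η i)) atTop (𝓝 (D a))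

/-- `D` is boundedly approximately semi-inner. -/
def BddApproxSemiInner {Y : Type u} [NormedAddCommGroup Y] [NormedSpace ℂ Y]
    (M : Bimod A Y) (D : A →L[ℂ] Y) : Prop :=
  ∃ (ι : Type) (_ : Preorder ι) (_ : IsDirected ι (· ≤ ·)) (_ : Nonempty ι) (ξ η : ι → Y),
    (∀ a, Tendsto (fun i => M.left a (ξ i) - M.right a (η i)) atTop (𝓝 (D a))) ∧
    ∃ K : ℝ, 0 < K ∧ ∀ i a, ‖M.left a (ξ i) - M.right a (η i)‖ ≤ K * ‖a‖

variable (A)

/-- Approximate semi-amenability. -/
def ApproxSemiAmenable : Prop :=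
  ∀ (X : Type u) [NormedAddCommGroup X] [NormedSpace ℂ X] [CompleteSpace X] (M : Bimod A X)
    (D : A →L[ℂ] (X →L[ℂ] ℂ)), IsDerivation M.dual D → ApproxSemiInner M.dual D

/-- Bounded approximate semi-amenability. -/
def BddApproxSemiAmenable : Prop :=
  ∀ (X : Type u) [NormedAddCommGroup X] [NormedSpace ℂ X] [CompleteSpace X] (M : Bimod A X)
    (D : A →L[ℂ] (X →L[ℂ] ℂ)), IsDerivation M.dual D → BddApproxSemiInner M.dual D

end Defs

/-! ### Positive part: the general mechanism -/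

section General

variable {A : Type} [NonUnitalNormedCommRing A] [NormedSpace ℂ A]

lemma key {Y : Type u} [NormedAddCommGroup Y] [NormedSpace ℂ Y] (M : Bimod A Y)
    (D : A →L[ℂ] Y) (hD : IsDerivation M D) {S : Type} (e : S → A)
    (he : ∀ s, e s * e s = e s) (c : S → A → ℂ) (hc : ∀ s a, e s * a = c s a • e s)
    (F : Finset S) (a : A) :
    D ((∑ s ∈ F, e s) * a) =
      M.left a (∑ s ∈ F, M.left (e s) (D (e s))) - M.right a (-∑ s ∈ F, M.right (e s) (D (e s))) := by
  rw [Finset.sum_mul, map_sum, map_neg, map_sum, map_sum, sub_neg_eq_add, ← Finset.sum_add_distrib]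
  refine Finset.sum_congr rfl fun s _ => ?_
  rw [← M.left_mul, ← M.right_mul, mul_comm a (e s), hc]
  rw [map_smul, map_smul, map_smul]
  have h := hD (e s) (e s)
  rw [he] at h
  conv_lhs => rw [h]
  simp [smul_add]

lemma approxSemiInner_of {Y : Type u} [NormedAddCommGroup Y] [NormedSpace ℂ Y] (M : Bimod A Y)
    (D : A →L[ℂ] Y) (hD : IsDerivation M D) {S : Type} (e : S → A)
    (he : ∀ s, e s * e s = e s) (c : S → A → ℂ) (hc : ∀ s a, e s * a = c s a • e s)
    (happ : ∀ (T : Finset A) (ε : ℝ), 0 < ε → ∃ F : Finset S, ∀ a ∈ T, ‖(∑ s ∈ F, e s) * a - a‖ < ε) :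
    ApproxSemiInner M D := by
  classical
  have h1 : ∀ i : Finset A × ℕ, ∃ F : Finset S, ∀ a ∈ i.1,
      ‖(∑ s ∈ F, e s) * a - a‖ < 1 / ((i.2 : ℝ) + 1) := fun i =>
    happ i.1 _ (by positivity)
  choose F hF using h1
  refine ⟨Finset A × ℕ, inferInstance, inferInstance, inferInstance,
    fun i => ∑ s ∈ F i, M.left (e s) (D (e s)),
    fun i => -∑ s ∈ F i, M.right (e s) (D (e s)), fun a => ?_⟩
  have h2 : Tendsto (fun i => (∑ s ∈ F i, e s) * a) atTop (𝓝 a) := by
    rw [Metric.tendsto_atTop]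
    intro ε hε
    obtain ⟨n, hn⟩ := exists_nat_one_div_lt hε
    refine ⟨({a}, n), fun i hi => ?_⟩
    rw [dist_eq_norm]
    have h3 : a ∈ i.1 := hi.1 (Finset.mem_singleton_self a)
    refine (hF i a h3).trans (lt_of_le_of_lt ?_ hn)
    have h4 : (n : ℝ) ≤ (i.2 : ℝ) := by exact_mod_cast hi.2
    exact one_div_le_one_div_of_le (by positivity) (by linarith)
  have h3 := (D.continuous.tendsto a).comp h2
  refine h3.congr fun i => ?_
  exact key M D hD e he c hc (F i) a

end General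


/-! ### The algebra -/

/-- `ℓ¹(ι)`. -/
noncomputable abbrev L1 (ι : Type) := lp (fun _ : ι => ℂ) 1

lemma memL1_iff {ι : Type} (f : ι → ℂ) : Memℓp f 1 ↔ Summable fun i => ‖f i‖ := by
  rw [memℓp_gen_iff (by simp)]
  simp

lemma norm_L1 {ι : Type} (f : L1 ι) : ‖f‖ = ∑' i, ‖f i‖ := by
  rw [lp.norm_eq_tsum_rpow (by simp)]
  simp

lemma summable_L1 {ι : Type} (f : L1 ι) : Summable fun i => ‖f i‖ := (memL1_iff _).1 f.2

lemma nw (n : ℕ) : ‖((n : ℂ) + 1)‖ = (n : ℝ) + 1 := by
  have := Complex.norm_natCast (n + 1)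
  push_cast at this
  exact this

/-- Membership: `∑ (n+1)|a(n,k)| < ∞` and `∑ₙ (n+1)²|∑ₖ a(n,k)| < ∞`. -/
def Good (a : ℕ × ℕ → ℂ) : Prop :=
  (Summable fun p : ℕ × ℕ => ((p.1 : ℝ) + 1) * ‖a p‖) ∧
  Summable fun n : ℕ => ((n : ℝ) + 1) ^ 2 * ‖∑' k, a (n, k)‖

lemma Good.row {a : ℕ × ℕ → ℂ} (ha : Good a) (n : ℕ) : Summable fun k => a (n, k) := by
  have h := ha.1.prod_factor n
  have h2 := h.mul_left (((n : ℝ) + 1)⁻¹)
  refine Summable.of_norm (h2.congr fun k => ?_)
  field_simp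

lemma good_mul_aux {a b : ℕ × ℕ → ℂ} (ha : Good a) (hb : Good b) :
    (Summable fun p : ℕ × ℕ => (((p.1 : ℝ) + 1) * ‖a p‖) * (((p.1 : ℝ) + 1) * ‖b p‖)) ∧
    (∑' p : ℕ × ℕ, (((p.1 : ℝ) + 1) * ‖a p‖) * (((p.1 : ℝ) + 1) * ‖b p‖)) ≤
      (∑' p : ℕ × ℕ, ((p.1 : ℝ) + 1) * ‖a p‖) * (∑' p : ℕ × ℕ, ((p.1 : ℝ) + 1) * ‖b p‖) := by
  have hle : ∀ p : ℕ × ℕ, (((p.1 : ℝ) + 1) * ‖a p‖) * (((p.1 : ℝ) + 1) * ‖b p‖) ≤
      (((p.1 : ℝ) + 1) * ‖a p‖) * (∑' p : ℕ × ℕ, ((p.1 : ℝ) + 1) * ‖b p‖) := fun p =>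
    mul_le_mul_of_nonneg_left (hb.1.le_tsum p (fun q _ => by positivity)) (by positivity)
  have hs : Summable fun p : ℕ × ℕ => (((p.1 : ℝ) + 1) * ‖a p‖) * (((p.1 : ℝ) + 1) * ‖b p‖) :=
    Summable.of_nonneg_of_le (fun p => by positivity) hle (ha.1.mul_right _)
  refine ⟨hs, ?_⟩
  rw [← tsum_mul_right]
  exact hs.tsum_le_tsum hle (ha.1.mul_right _)

lemma good_mul_row {a b : ℕ × ℕ → ℂ} (ha : Good a) (hb : Good b) (n : ℕ) :
    ((n : ℝ) + 1) ^ 2 * ‖∑' k, (a * b) (n, k)‖ ≤
      ∑' k, (((n : ℝ) + 1) * ‖a (n, k)‖) * (((n : ℝ) + 1) * ‖b (n, k)‖) := by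
  have h1 := (good_mul_aux ha hb).1.prod_factor n
  simp only at h1
  have h2 : Summable fun k => ‖(a * b) (n, k)‖ := by
    refine (h1.mul_left ((((n : ℝ) + 1) ^ 2)⁻¹)).congr fun k => ?_
    rw [Pi.mul_apply, norm_mul]
    field_simp
  calc ((n : ℝ) + 1) ^ 2 * ‖∑' k, (a * b) (n, k)‖
      ≤ ((n : ℝ) + 1) ^ 2 * ∑' k, ‖(a * b) (n, k)‖ :=
        mul_le_mul_of_nonneg_left (norm_tsum_le_tsum_norm h2) (by positivity)
    _ = ∑' k, (((n : ℝ) + 1) * ‖a (n, k)‖) * (((n : ℝ) + 1) * ‖b (n, k)‖) := by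
        rw [← tsum_mul_left]
        refine tsum_congr fun k => ?_
        rw [Pi.mul_apply, norm_mul]
        ring

lemma good_mul1 {a b : ℕ × ℕ → ℂ} (p : ℕ × ℕ) :
    ((p.1 : ℝ) + 1) * ‖(a * b) p‖ ≤ (((p.1 : ℝ) + 1) * ‖a p‖) * (((p.1 : ℝ) + 1) * ‖b p‖) := by
  rw [Pi.mul_apply, norm_mul]
  have h1 : (1 : ℝ) ≤ (p.1 : ℝ) + 1 := by
    have : (0 : ℝ) ≤ p.1 := Nat.cast_nonneg _
    linarith
  have h2 : 0 ≤ ‖a p‖ * ‖b p‖ := by positivity
  nlinarith [mul_nonneg (mul_nonneg h2 (by linarith : (0 : ℝ) ≤ (p.1 : ℝ) + 1)) (sub_nonneg.2 h1)]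

lemma good_mul {a b : ℕ × ℕ → ℂ} (ha : Good a) (hb : Good b) : Good (a * b) := by
  obtain ⟨h1, -⟩ := good_mul_aux ha hb
  refine ⟨Summable.of_nonneg_of_le (fun p => by positivity) good_mul1 h1, ?_⟩
  exact Summable.of_nonneg_of_le (fun n => by positivity) (good_mul_row ha hb) h1.prod

lemma good_add {a b : ℕ × ℕ → ℂ} (ha : Good a) (hb : Good b) : Good (a + b) := by
  refine ⟨Summable.of_nonneg_of_le (fun p => by positivity) (fun p => ?_) (ha.1.add hb.1), 
    Summable.of_nonneg_of_le (fun p => by positivity) (fun n => ?_) (ha.2.add hb.2)⟩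
  · rw [← mul_add]
    exact mul_le_mul_of_nonneg_left (norm_add_le _ _) (by positivity)
  · rw [← mul_add]
    refine mul_le_mul_of_nonneg_left ?_ (by positivity)
    have : ∑' k, (a + b) (n, k) = ∑' k, a (n, k) + ∑' k, b (n, k) :=
      (ha.row n).tsum_add (hb.row n)
    rw [this]
    exact norm_add_le _ _

lemma good_smul (c : ℂ) {a : ℕ × ℕ → ℂ} (ha : Good a) : Good (c • a) := by
  refine ⟨(ha.1.mul_left ‖c‖).congr fun p => ?_, (ha.2.mul_left ‖c‖).congr fun n => ?_⟩
  · simp only [Pi.smul_apply, smul_eq_mul, norm_mul]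
    ring
  · simp only [Pi.smul_apply, smul_eq_mul, norm_mul, tsum_mul_left]
    ring

lemma good_zero : Good 0 := by
  refine ⟨?_, ?_⟩
  · simp
  · simp

/-- The algebra of all `a : ℕ × ℕ → ℂ` with `Good a`, pointwise operations. -/
def alg : NonUnitalSubalgebra ℂ (ℕ × ℕ → ℂ) where
  carrier := {a | Good a}
  mul_mem' ha hb := good_mul ha hb
  add_mem' ha hb := good_add ha hb
  zero_mem' := good_zero
  smul_mem' c _ ha := good_smul c ha

/-- The algebra, as a type of its own. -/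
def A : Type := ↥alg

noncomputable instance : NonUnitalCommRing A := inferInstanceAs (NonUnitalCommRing alg)
noncomputable instance : Module ℂ A := inferInstanceAs (Module ℂ alg)
instance : IsScalarTower ℂ A A := inferInstanceAs (IsScalarTower ℂ alg alg)
instance : SMulCommClass ℂ A A := inferInstanceAs (SMulCommClass ℂ alg alg)

/-- The underlying function. -/
def val : A →ₗ[ℂ] (ℕ × ℕ → ℂ) where
  toFun a := a.1
  map_add' _ _ := rfl
  map_smul' _ _ := rfl

lemma val_good (a : A) : Good (val a) := a.2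

lemma val_mul (a b : A) : val (a * b) = val a * val b := rfl

/-- The element with a given underlying function. -/
def mkA (f : ℕ × ℕ → ℂ) (h : Good f) : A := (⟨f, h⟩ : alg)

lemma val_mkA (f : ℕ × ℕ → ℂ) (h : Good f) : val (mkA f h) = f := rfl

lemma val_inj {a b : A} (h : val a = val b) : a = b := Subtype.ext h

/-- The isometric embedding used to define the norm. -/
noncomputable def emb : A →ₗ[ℂ] L1 (ℕ × ℕ) × L1 ℕ where
  toFun a := (⟨fun p => ((p.1 : ℂ) + 1) * val a p, (memL1_iff _).2 (by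
      refine (val_good a).1.congr fun p => ?_
      rw [norm_mul, nw])⟩,
    ⟨fun n => ((n : ℂ) + 1) ^ 2 * ∑' k, val a (n, k), (memL1_iff _).2 (by
      refine (val_good a).2.congr fun p => ?_
      rw [norm_mul, norm_pow, nw])⟩)
  map_add' a b := by
    refine Prod.ext ?_ ?_
    · ext p
      change ((p.1 : ℂ) + 1) * (val a p + val b p) =
        ((p.1 : ℂ) + 1) * val a p + ((p.1 : ℂ) + 1) * val b p
      ring
    · ext n
      have : ∑' k, (val a + val b) (n, k) = ∑' k, val a (n, k) + ∑' k, val b (n, k) :=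
        ((val_good a).row n).tsum_add ((val_good b).row n)
      change ((n : ℂ) + 1) ^ 2 * (∑' k, (val a + val b) (n, k)) =
        ((n : ℂ) + 1) ^ 2 * (∑' k, val a (n, k)) + ((n : ℂ) + 1) ^ 2 * (∑' k, val b (n, k))
      rw [this]
      ring
  map_smul' c a := by
    refine Prod.ext ?_ ?_
    · ext p
      simp
      ring
    · ext n
      simp [tsum_mul_left]
      ring

lemma emb_fst (a : A) (p : ℕ × ℕ) : (emb a).1 p = ((p.1 : ℂ) + 1) * val a p := rfl
lemma emb_snd (a : A) (n : ℕ) : (emb a).2 n = ((n : ℂ) + 1) ^ 2 * ∑' k, val a (n, k) := rfl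

lemma emb_inj : Function.Injective emb := by
  intro a b h
  apply val_inj
  funext p
  have h1 : (emb a).1 p = (emb b).1 p := by rw [h]
  rw [emb_fst, emb_fst] at h1
  have h2 : ((p.1 : ℂ) + 1) ≠ 0 := by exact_mod_cast Nat.succ_ne_zero p.1
  exact mul_left_cancel₀ h2 h1

/-- First part of the norm. -/
noncomputable def nX (a : A) : ℝ := ∑' p : ℕ × ℕ, ((p.1 : ℝ) + 1) * ‖val a p‖
/-- Second part of the norm. -/
noncomputable def nY (a : A) : ℝ := ∑' n : ℕ, ((n : ℝ) + 1) ^ 2 * ‖∑' k, val a (n, k)‖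

lemma norm_emb (a : A) : ‖emb a‖ = max (nX a) (nY a) := by
  rw [Prod.norm_def, norm_L1, norm_L1]
  congr 1
  · refine tsum_congr fun p => ?_
    rw [emb_fst, norm_mul, nw]
  · refine tsum_congr fun p => ?_
    rw [emb_snd, norm_mul, norm_pow, nw]

lemma nX_nonneg (a : A) : 0 ≤ nX a := tsum_nonneg fun p => by positivity

lemma nX_mul (a b : A) : nX (a * b) ≤ nX a * nX b := by
  obtain ⟨h1, h2⟩ := good_mul_aux (val_good a) (val_good b)
  refine le_trans ?_ h2
  exact (good_mul (val_good a) (val_good b)).1.tsum_le_tsum good_mul1 h1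

lemma nY_mul (a b : A) : nY (a * b) ≤ nX a * nX b := by
  obtain ⟨h1, h2⟩ := good_mul_aux (val_good a) (val_good b)
  refine le_trans ?_ h2
  rw [h1.tsum_prod]
  exact (good_mul (val_good a) (val_good b)).2.tsum_le_tsum
    (good_mul_row (val_good a) (val_good b)) h1.prod

noncomputable instance : NonUnitalNormedCommRing A :=
  { (inferInstance : NonUnitalCommRing A), NormedAddCommGroup.induced A (L1 (ℕ × ℕ) × L1 ℕ) emb emb_inj with
    norm_mul_le := by
      intro a b
      change ‖emb (a * b)‖ ≤ ‖emb a‖ * ‖emb b‖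
      rw [norm_emb, norm_emb, norm_emb]
      have h : nX a * nX b ≤ max (nX a) (nY a) * max (nX b) (nY b) :=
        mul_le_mul (le_max_left _ _) (le_max_left _ _) (nX_nonneg b)
          ((nX_nonneg a).trans (le_max_left _ _))
      exact max_le ((nX_mul a b).trans h) ((nY_mul a b).trans h) }

lemma norm_def (a : A) : ‖a‖ = max (nX a) (nY a) := norm_emb a

lemma norm_A (a : A) : ‖a‖ = ‖emb a‖ := rfl

noncomputable instance : NormedSpace ℂ A where
  norm_smul_le c a := by
    rw [norm_A, norm_A, map_smul]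
    exact norm_smul_le c _

lemma emb_isometry : Isometry emb :=
  AddMonoidHomClass.isometry_of_norm emb fun _ => rfl

/-- Row sums on `ℓ¹(ℕ × ℕ)`. -/
noncomputable def rowL (n : ℕ) : L1 (ℕ × ℕ) →ₗ[ℂ] ℂ where
  toFun x := ∑' k, x (n, k)
  map_add' x y := by
    have hx : Summable fun k => x (n, k) := Summable.of_norm ((summable_L1 x).prod_factor n)
    have hy : Summable fun k => y (n, k) := Summable.of_norm ((summable_L1 y).prod_factor n)
    exact hx.tsum_add hy
  map_smul' c x := by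
    simp [tsum_mul_left]

lemma rowL_bound (n : ℕ) (x : L1 (ℕ × ℕ)) : ‖rowL n x‖ ≤ 1 * ‖x‖ := by
  have hx := (summable_L1 x)
  have h2 : ‖rowL n x‖ ≤ ∑' k, ‖x (n, k)‖ := norm_tsum_le_tsum_norm (hx.prod_factor n)
  rw [one_mul, norm_L1, hx.tsum_prod]
  exact h2.trans (hx.prod.le_tsum n fun m _ => tsum_nonneg fun _ => norm_nonneg _)

lemma rowL_cont (n : ℕ) : Continuous (rowL n) :=
  AddMonoidHomClass.continuous_of_bound (rowL n) 1 (rowL_bound n)

lemma range_emb : Set.range emb = ⋂ n : ℕ, {z : L1 (ℕ × ℕ) × L1 ℕ | z.2 n = ((n : ℂ) + 1) * rowL n z.1} := by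
  ext z
  simp only [Set.mem_range, Set.mem_iInter, Set.mem_ofPred_eq]
  have hne : ∀ n : ℕ, ((n : ℂ) + 1) ≠ 0 := fun n => by exact_mod_cast Nat.succ_ne_zero n
  constructor
  · rintro ⟨a, rfl⟩ n
    rw [emb_snd]
    change _ = ((n : ℂ) + 1) * ∑' k, (emb a).1 (n, k)
    simp only [emb_fst]
    rw [tsum_mul_left]
    ring
  · intro h
    have hg : Good (fun p => z.1 p / ((p.1 : ℂ) + 1)) := by
      refine ⟨(summable_L1 z.1).congr fun p => ?_, (summable_L1 z.2).congr fun n => ?_⟩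
      · rw [norm_div, nw]
        field_simp
      · rw [h n]
        simp only
        rw [tsum_div_const, norm_div, nw, norm_mul, nw]
        change ((n : ℝ) + 1) * ‖∑' k, z.1 (n, k)‖ = _
        field_simp
    refine ⟨mkA _ hg, ?_⟩
    refine Prod.ext ?_ ?_
    · ext p
      rw [emb_fst, val_mkA]
      field_simp [hne p.1]
    · ext n
      have e1 : (∑' k, z.1 (n, k) / ((n : ℂ) + 1)) = (∑' k, z.1 (n, k)) / ((n : ℂ) + 1) :=
        tsum_div_const
      rw [emb_snd, h n, val_mkA]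
      change ((n : ℂ) + 1) ^ 2 * (∑' k, z.1 (n, k) / ((n : ℂ) + 1)) =
        ((n : ℂ) + 1) * ∑' k, z.1 (n, k)
      rw [e1]
      field_simp [hne n]

instance : CompleteSpace A := by
  refine emb_isometry.isUniformInducing.completeSpace ?_
  rw [range_emb]
  refine IsClosed.isComplete (isClosed_iInter fun n => isClosed_eq ?_ ?_)
  · have : Continuous fun x : L1 ℕ => x n := by
      have hb : ∀ x : L1 ℕ, ‖x n‖ ≤ 1 * ‖x‖ := fun x => by
        rw [one_mul]
        exact lp.norm_apply_le_norm (by simp) x n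
      let f : L1 ℕ →ₗ[ℂ] ℂ := { toFun := fun x => x n, map_add' := fun _ _ => rfl, map_smul' := fun _ _ => rfl }
      exact AddMonoidHomClass.continuous_of_bound f 1 hb
    exact this.comp continuous_snd
  · exact continuous_const.mul ((rowL_cont n).comp continuous_fst)

/-! ### Idempotents and approximation -/

lemma good_single (s : ℕ × ℕ) : Good (Pi.single s 1) := by
  refine ⟨summable_of_ne_finset_zero (s := {s}) fun p hp => ?_,
    summable_of_ne_finset_zero (s := {s.1}) fun n hn => ?_⟩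
  · rw [Finset.mem_singleton] at hp
    rw [Pi.single_eq_of_ne hp]
    simp
  · rw [Finset.mem_singleton] at hn
    have : ∀ k, (Pi.single s (1 : ℂ) : ℕ × ℕ → ℂ) (n, k) = 0 := fun k => by
      rw [Pi.single_eq_of_ne]
      rintro rfl
      exact hn rfl
    simp [this]

/-- The minimal idempotents. -/
noncomputable def e (s : ℕ × ℕ) : A := mkA _ (good_single s)

lemma val_e (s : ℕ × ℕ) : val (e s) = Pi.single s 1 := rfl

lemma e_mul (s : ℕ × ℕ) (a : A) : e s * a = val a s • e s := by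
  apply val_inj
  rw [val_mul, map_smul, val_e]
  funext p
  by_cases h : p = s
  · subst h
    simp
  · simp [Pi.single_eq_of_ne h]

lemma e_sq (s : ℕ × ℕ) : e s * e s = e s := by
  rw [e_mul, val_e]
  simp

lemma val_sum_e (F : Finset (ℕ × ℕ)) (a : A) (p : ℕ × ℕ) :
    val ((∑ s ∈ F, e s) * a) p = if p ∈ F then val a p else 0 := by
  rw [val_mul, map_sum, Pi.mul_apply, Finset.sum_apply]
  simp only [val_e, Pi.single_apply]
  rw [Finset.sum_ite_eq]
  split_ifs <;> simp

lemma val_rem (F : Finset (ℕ × ℕ)) (a : A) (p : ℕ × ℕ) :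
    val ((∑ s ∈ F, e s) * a - a) p = if p ∈ F then 0 else - val a p := by
  rw [map_sub, Pi.sub_apply, val_sum_e]
  split_ifs <;> simp

lemma nX_rem (F : Finset (ℕ × ℕ)) (a : A) :
    nX ((∑ s ∈ F, e s) * a - a) = nX a - ∑ p ∈ F, ((p.1 : ℝ) + 1) * ‖val a p‖ := by
  classical
  have h1 : ∀ p : ℕ × ℕ, ((p.1 : ℝ) + 1) * ‖val ((∑ s ∈ F, e s) * a - a) p‖ =
      ((p.1 : ℝ) + 1) * ‖val a p‖ - (if p ∈ F then ((p.1 : ℝ) + 1) * ‖val a p‖ else 0) := by
    intro p
    rw [val_rem]
    split_ifs <;> simp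
  have hs : Summable fun p : ℕ × ℕ => (if p ∈ F then ((p.1 : ℝ) + 1) * ‖val a p‖ else 0) :=
    summable_of_ne_finset_zero (s := F) fun p hp => by rw [if_neg hp]
  unfold nX
  rw [tsum_congr h1, (val_good a).1.tsum_sub hs]
  congr 1
  rw [tsum_eq_sum (s := F) (fun p hp => by rw [if_neg hp])]
  exact Finset.sum_congr rfl fun p hp => by rw [if_pos hp]

lemma row_rem (N M : ℕ) (a : A) (n : ℕ) :
    ‖∑' k, val ((∑ s ∈ Finset.range N ×ˢ Finset.range M, e s) * a - a) (n, k)‖ =
      if n < N then ‖∑' k, val a (n, k) - ∑ k ∈ Finset.range M, val a (n, k)‖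
      else ‖∑' k, val a (n, k)‖ := by
  simp only [val_rem, Finset.mem_product, Finset.mem_range]
  split_ifs with h
  · simp only [h, true_and]
    have h1 : ∀ k : ℕ, (if k < M then (0 : ℂ) else - val a (n, k)) =
        -(val a (n, k) - (if k < M then val a (n, k) else 0)) := by
      intro k
      split_ifs <;> simp
    have hs : Summable fun k : ℕ => (if k < M then val a (n, k) else 0) :=
      summable_of_ne_finset_zero (s := Finset.range M) fun k hk => by
        rw [Finset.mem_range] at hk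
        rw [if_neg hk]
    rw [tsum_congr h1, tsum_neg, norm_neg, ((val_good a).row n).tsum_sub hs]
    congr 2
    rw [tsum_eq_sum (s := Finset.range M) (fun k hk => by
      rw [Finset.mem_range] at hk
      rw [if_neg hk])]
    exact Finset.sum_congr rfl fun k hk => by rw [if_pos (Finset.mem_range.1 hk)]
  · simp only [h, false_and, if_false]
    rw [tsum_neg, norm_neg]

lemma nY_rem (N M : ℕ) (a : A) :
    nY ((∑ s ∈ Finset.range N ×ˢ Finset.range M, e s) * a - a) =
      (∑ n ∈ Finset.range N, ((n : ℝ) + 1) ^ 2 *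
        ‖∑' k, val a (n, k) - ∑ k ∈ Finset.range M, val a (n, k)‖) +
      ∑' n : ℕ, (((n + N : ℕ) : ℝ) + 1) ^ 2 * ‖∑' k, val a (n + N, k)‖ := by
  unfold nY
  rw [← (val_good ((∑ s ∈ Finset.range N ×ˢ Finset.range M, e s) * a - a)).2.sum_add_tsum_nat_add N]
  congr 1
  · refine Finset.sum_congr rfl fun n hn => ?_
    rw [row_rem, if_pos (Finset.mem_range.1 hn)]
  · refine tsum_congr fun n => ?_
    rw [row_rem, if_neg (by omega)]

lemma approx_one (a : A) (ε : ℝ) (hε : 0 < ε) : ∀ᶠ N : ℕ in atTop, ∀ᶠ M : ℕ in atTop,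
    ‖(∑ s ∈ Finset.range N ×ˢ Finset.range M, e s) * a - a‖ < ε := by
  have hX : ∀ᶠ N : ℕ in atTop, ∀ᶠ M : ℕ in atTop,
      nX ((∑ s ∈ Finset.range N ×ˢ Finset.range M, e s) * a - a) < ε := by
    have h1 : Tendsto (fun F : Finset (ℕ × ℕ) => nX a - ∑ p ∈ F, ((p.1 : ℝ) + 1) * ‖val a p‖)
        atTop (𝓝 0) := by
      have := (val_good a).1.hasSum
      have h2 := (tendsto_const_nhds (x := nX a)).sub this
      simpa [nX] using h2
    have h2 := (h1.eventually (gt_mem_nhds hε))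
    rw [eventually_atTop] at h2
    obtain ⟨F0, hF0⟩ := h2
    obtain ⟨N0, hN0⟩ := (F0.image Prod.fst).exists_nat_subset_range
    obtain ⟨M0, hM0⟩ := (F0.image Prod.snd).exists_nat_subset_range
    filter_upwards [eventually_ge_atTop N0] with N hN
    filter_upwards [eventually_ge_atTop M0] with M hM
    rw [nX_rem]
    refine hF0 _ ?_
    intro p hp
    have e1 := hN0 (Finset.mem_image_of_mem Prod.fst hp)
    have e2 := hM0 (Finset.mem_image_of_mem Prod.snd hp)
    rw [Finset.mem_range] at e1 e2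
    rw [Finset.mem_product, Finset.mem_range, Finset.mem_range]
    exact ⟨by omega, by omega⟩
  have hY : ∀ᶠ N : ℕ in atTop, ∀ᶠ M : ℕ in atTop,
      nY ((∑ s ∈ Finset.range N ×ˢ Finset.range M, e s) * a - a) < ε := by
    have h1 : Tendsto (fun N : ℕ => ∑' n : ℕ, (((n + N : ℕ) : ℝ) + 1) ^ 2 * ‖∑' k, val a (n + N, k)‖)
        atTop (𝓝 0) :=
      tendsto_sum_nat_add fun n : ℕ => ((n : ℝ) + 1) ^ 2 * ‖∑' k, val a (n, k)‖
    filter_upwards [h1.eventually (gt_mem_nhds hε)] with N hN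
    have h2 : Tendsto (fun M : ℕ => (∑ n ∈ Finset.range N, ((n : ℝ) + 1) ^ 2 *
        ‖∑' k, val a (n, k) - ∑ k ∈ Finset.range M, val a (n, k)‖) +
      ∑' n : ℕ, (((n + N : ℕ) : ℝ) + 1) ^ 2 * ‖∑' k, val a (n + N, k)‖) atTop
        (𝓝 ((∑ n ∈ Finset.range N, 0) + 
          ∑' n : ℕ, (((n + N : ℕ) : ℝ) + 1) ^ 2 * ‖∑' k, val a (n + N, k)‖)) := by
      refine Tendsto.add (tendsto_finsetSum _ fun n _ => ?_) tendsto_const_nhds
      have h3 := ((val_good a).row n).hasSum.tendsto_sum_nat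
      have h4 := ((tendsto_const_nhds (x := ∑' k, val a (n, k))).sub h3).norm.const_mul
        (((n : ℝ) + 1) ^ 2)
      simpa using h4
    rw [Finset.sum_const_zero, zero_add] at h2
    filter_upwards [h2.eventually (gt_mem_nhds hN)] with M hM
    rw [nY_rem]
    exact hM
  filter_upwards [hX, hY] with N h1 h2
  filter_upwards [h1, h2] with M h3 h4
  rw [norm_def]
  exact max_lt h3 h4

lemma approx_all (T : Finset A) (ε : ℝ) (hε : 0 < ε) :
    ∃ F : Finset (ℕ × ℕ), ∀ a ∈ T, ‖(∑ s ∈ F, e s) * a - a‖ < ε := by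
  have h1 : ∀ᶠ N : ℕ in atTop, ∀ a ∈ T, ∀ᶠ M : ℕ in atTop,
      ‖(∑ s ∈ Finset.range N ×ˢ Finset.range M, e s) * a - a‖ < ε :=
    (Finset.eventually_all T).2 fun a _ => approx_one a ε hε
  obtain ⟨N, hN⟩ := h1.exists
  have h2 : ∀ᶠ M : ℕ in atTop, ∀ a ∈ T,
      ‖(∑ s ∈ Finset.range N ×ˢ Finset.range M, e s) * a - a‖ < ε :=
    (Finset.eventually_all T).2 hN
  obtain ⟨M, hM⟩ := h2.exists
  exact ⟨_, hM⟩

theorem approxSemiAmenable_A : ApproxSemiAmenable.{u} A := by
  intro X _ _ _ M D hD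
  exact approxSemiInner_of M.dual D hD e e_sq (fun s a => val a s) e_mul approx_all

/-! ### Negative part -/

/-- The bimodule `A*` with zero left action and right action `(f·a)(b) = f(ab)`. -/
noncomputable def MA : Bimod A (A →L[ℂ] ℂ) where
  left := 0
  right := (ContinuousLinearMap.compL ℂ A A ℂ).flip ∘L (ContinuousLinearMap.mul ℂ A)
  left_mul := by
    intro a b x
    simp
  right_mul := by
    intro a b f
    ext c
    simp [mul_assoc]
  left_right := by
    intro a b f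
    simp

lemma MA_right (a : A) (f : A →L[ℂ] ℂ) (b : A) : MA.right a f b = f (a * b) := rfl

/-- Evaluation at `p`. -/
noncomputable def ev (p : ℕ × ℕ) : A →L[ℂ] ℂ :=
  LinearMap.mkContinuous
    { toFun := fun a => val a p
      map_add' := fun _ _ => rfl
      map_smul' := fun _ _ => rfl } 1 (by
    intro a
    rw [one_mul, norm_def]
    refine le_trans ?_ (le_max_left _ _)
    have h1 := (val_good a).1.le_tsum p (fun q _ => by positivity)
    refine le_trans ?_ h1
    have h2 : (0 : ℝ) ≤ p.1 := Nat.cast_nonneg _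
    change ‖val a p‖ ≤ _
    nlinarith [norm_nonneg (val a p)])

lemma ev_apply (p : ℕ × ℕ) (a : A) : ev p a = val a p := rfl

/-- Row sum functional. -/
noncomputable def rowA (n : ℕ) : A →L[ℂ] ℂ :=
  LinearMap.mkContinuous
    { toFun := fun a => ∑' k, val a (n, k)
      map_add' := fun a b => ((val_good a).row n).tsum_add ((val_good b).row n)
      map_smul' := fun c a => by simp [tsum_mul_left] } ((((n : ℝ) + 1) ^ 2)⁻¹) (by
    intro a
    rw [norm_def]
    have h1 := (val_good a).2.le_tsum n (fun q _ => by positivity)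
    have h2 : ((n : ℝ) + 1) ^ 2 * ‖∑' k, val a (n, k)‖ ≤ max (nX a) (nY a) :=
      h1.trans (le_max_right _ _)
    change ‖∑' k, val a (n, k)‖ ≤ _
    have h3 : (0 : ℝ) < ((n : ℝ) + 1) ^ 2 := by positivity
    rw [inv_mul_eq_div, le_div_iff₀ h3]
    linarith)

lemma rowA_apply (n : ℕ) (a : A) : rowA n a = ∑' k, val a (n, k) := rfl

lemma rowA_norm (n : ℕ) : ‖rowA n‖ ≤ (((n : ℝ) + 1) ^ 2)⁻¹ :=
  LinearMap.mkContinuous_norm_le _ (by positivity) _

lemma MA_ev (s : ℕ × ℕ) (a : A) : MA.right a (ev s) = val a s • ev s := by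
  ext b
  rw [MA_right, ev_apply, val_mul]
  rfl

lemma MA_row (n j : ℕ) : MA.right (e (n, j)) (rowA n) = ev (n, j) := by
  ext b
  rw [MA_right, rowA_apply, e_mul, map_smul, val_e, ev_apply]
  rw [tsum_eq_single j]
  · simp
  · intro k hk
    rw [Pi.smul_apply, Pi.single_eq_of_ne]
    · simp
    · intro h
      exact hk (by simpa using h)

lemma norm_e_sub (n j k : ℕ) : ‖e (n, j) - e (n, k)‖ ≤ 2 * ((n : ℝ) + 1) := by
  rw [norm_def]
  have hrow : ∀ (i m : ℕ), ∑' l, val (e (n, i)) (m, l) = if m = n then 1 else 0 := by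
    intro i m
    rw [val_e]
    split_ifs with h
    · subst h
      rw [tsum_eq_single i]
      · simp
      · intro l hl
        rw [Pi.single_eq_of_ne]
        intro h
        exact hl (by simpa using h)
    · rw [show (fun l => (Pi.single (n, i) (1 : ℂ) : ℕ × ℕ → ℂ) (m, l)) = fun _ => 0 from ?_]
      · simp
      · funext l
        rw [Pi.single_eq_of_ne]
        intro h'
        exact h (by simpa using congrArg Prod.fst h')
  have hX : ∀ i, nX (e (n, i)) = (n : ℝ) + 1 := by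
    intro i
    unfold nX
    rw [tsum_eq_single (n, i)]
    · simp [val_e]
    · intro p hp
      rw [val_e, Pi.single_eq_of_ne hp]
      simp
  refine max_le ?_ ?_
  · have h1 : nX (e (n, j) - e (n, k)) ≤ nX (e (n, j)) + nX (e (n, k)) := by
      unfold nX
      rw [← (val_good (e (n, j))).1.tsum_add (val_good (e (n, k))).1]
      refine (val_good (e (n, j) - e (n, k))).1.tsum_le_tsum (fun p => ?_)
        ((val_good (e (n, j))).1.add (val_good (e (n, k))).1)
      rw [← mul_add, map_sub]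
      exact mul_le_mul_of_nonneg_left (norm_sub_le _ _) (by positivity)
    rw [hX, hX] at h1
    linarith
  · have h1 : nY (e (n, j) - e (n, k)) = 0 := by
      unfold nY
      rw [← tsum_zero]
      refine tsum_congr fun m => ?_
      have h2 : ∑' l, val (e (n, j) - e (n, k)) (m, l) = 0 := by
        rw [map_sub]
        have h3 := ((val_good (e (n, j))).row m).tsum_sub ((val_good (e (n, k))).row m)
        rw [hrow, hrow, sub_self] at h3
        exact h3
      rw [h2]
      simp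
    rw [h1]
    positivity

/-- A bounded family of unimodular combinations of evaluations. -/
lemma sum_ev_norm (n M : ℕ) (c : ℕ → ℂ) (hc : ∀ k, ‖c k‖ ≤ 1) :
    ‖∑ k ∈ Finset.range M, c k • ev (n, k)‖ ≤ 1 := by
  refine ContinuousLinearMap.opNorm_le_bound _ zero_le_one fun a => ?_
  rw [one_mul, norm_def]
  refine le_trans ?_ (le_max_left _ _)
  have h0 : (∑ k ∈ Finset.range M, c k • ev (n, k)) a = ∑ k ∈ Finset.range M, c k * val a (n, k) := by
    simp [ev_apply]
  rw [h0]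
  refine (norm_sum_le _ _).trans ?_
  have h1 : ∑ k ∈ Finset.range M, ‖c k * val a (n, k)‖ ≤
      ∑ k ∈ Finset.range M, (((n, k) : ℕ × ℕ).1 + 1 : ℝ) * ‖val a (n, k)‖ := by
    refine Finset.sum_le_sum fun k _ => ?_
    rw [norm_mul]
    refine mul_le_mul_of_nonneg_right ?_ (norm_nonneg _)
    have : (0 : ℝ) ≤ n := Nat.cast_nonneg _
    have := hc k
    simp only
    linarith
  refine h1.trans ?_
  have hinj : Set.InjOn (fun k : ℕ => ((n, k) : ℕ × ℕ)) (Finset.range M : Set ℕ) := by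
    intro x _ y _ hxy
    simpa using hxy
  have h2 : ∑ k ∈ Finset.range M, (((n, k) : ℕ × ℕ).1 + 1 : ℝ) * ‖val a (n, k)‖ =
      ∑ p ∈ (Finset.range M).image (fun k : ℕ => ((n, k) : ℕ × ℕ)), ((p.1 : ℝ) + 1) * ‖val a p‖ :=
    (Finset.sum_image (f := fun p : ℕ × ℕ => ((p.1 : ℝ) + 1) * ‖val a p‖) hinj).symm
  rw [h2]
  exact (val_good a).1.sum_le_tsum _ (fun p _ => by positivity)

theorem not_bdd_A : ¬ BddApproxSemiAmenable.{0} A := by
  intro hA
  have hder : IsDerivation MA.dual (NormedSpace.inclusionInDoubleDual ℂ A) := by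
    intro a b
    ext f
    rw [add_apply]
    rw [dual_left, dual_right, NormedSpace.dual_def, NormedSpace.dual_def, NormedSpace.dual_def]
    rw [MA_right]
    simp [MA]
  obtain ⟨ι, _, _, _, ξ, η, hlim, K, hK, hbd⟩ := hA (A →L[ℂ] ℂ) MA _ hder
  have hzero : ∀ (a : A) (g : (A →L[ℂ] ℂ) →L[ℂ] ℂ), MA.dual.right a g = 0 := by
    intro a g
    ext f
    rw [dual_right]
    simp [MA]
  simp only [hzero, sub_zero] at hlim hbd
  obtain ⟨n, hn⟩ := exists_nat_gt (8 * K)
  have hlim0 := hlim (e (n, 0))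
  have hlim1 : Tendsto (fun i => ξ i (ev (n, 0))) atTop (𝓝 1) := by
    have h1 := ((ContinuousLinearMap.apply ℂ ℂ (ev (n, 0))).continuous.tendsto _).comp hlim0
    have h2 : (ContinuousLinearMap.apply ℂ ℂ (ev (n, 0)))
        ((NormedSpace.inclusionInDoubleDual ℂ A) (e (n, 0))) = 1 := by
      rw [ContinuousLinearMap.apply_apply, NormedSpace.dual_def, ev_apply, val_e]
      simp
    rw [h2] at h1
    refine h1.congr fun i => ?_
    rw [Function.comp_apply, ContinuousLinearMap.apply_apply, dual_left, MA_ev, val_e]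
    simp
  have hlim2 := hlim1.norm
  rw [norm_one] at hlim2
  obtain ⟨i, hi⟩ := (hlim2.eventually (lt_mem_nhds (show (1 / 2 : ℝ) < 1 by norm_num))).exists
  have hfar : ∀ k : ℕ, 1 / 4 ≤ ‖ξ i (ev (n, k))‖ := by
    intro k
    have h1 := hbd i (e (n, 0) - e (n, k))
    have h2 : ‖MA.dual.left (e (n, 0) - e (n, k)) (ξ i) (rowA n)‖ ≤
        (K * (2 * ((n : ℝ) + 1))) * (((n : ℝ) + 1) ^ 2)⁻¹ := by
      refine (ContinuousLinearMap.le_opNorm _ _).trans ?_
      refine mul_le_mul ?_ (rowA_norm n) (norm_nonneg _) (by positivity)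
      exact h1.trans (mul_le_mul_of_nonneg_left (norm_e_sub n 0 k) hK.le)
    rw [dual_left, map_sub, sub_apply, MA_row, MA_row, map_sub] at h2
    have h3 : (K * (2 * ((n : ℝ) + 1))) * (((n : ℝ) + 1) ^ 2)⁻¹ < 1 / 4 := by
      have hpos : (0 : ℝ) < (n : ℝ) + 1 := by positivity
      rw [← div_eq_mul_inv, div_lt_iff₀ (by positivity)]
      nlinarith
    have h4 := norm_sub_norm_le (ξ i (ev (n, 0))) (ξ i (ev (n, k)))
    linarith
  obtain ⟨M, hM⟩ := exists_nat_gt (4 * ‖ξ i‖)
  let c : ℕ → ℂ := fun k => (starRingEnd ℂ) (ξ i (ev (n, k))) / (‖ξ i (ev (n, k))‖ : ℂ)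
  have hc : ∀ k, ‖c k‖ ≤ 1 := by
    intro k
    simp only [c]
    rw [norm_div, RCLike.norm_conj, Complex.norm_real, norm_norm]
    exact div_self_le_one _
  have hval : ξ i (∑ k ∈ Finset.range M, c k • ev (n, k)) =
      ((∑ k ∈ Finset.range M, ‖ξ i (ev (n, k))‖ : ℝ) : ℂ) := by
    rw [map_sum, Complex.ofReal_sum]
    refine Finset.sum_congr rfl fun k _ => ?_
    rw [map_smul, smul_eq_mul]
    have hne : (‖ξ i (ev (n, k))‖ : ℂ) ≠ 0 := by
      have := hfar k
      have h5 : (0 : ℝ) < ‖ξ i (ev (n, k))‖ := by linarith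
      exact_mod_cast h5.ne'
    simp only [c]
    rw [div_mul_eq_mul_div, Complex.conj_mul', sq, mul_div_assoc, div_self hne, mul_one]
  have hle : ‖ξ i (∑ k ∈ Finset.range M, c k • ev (n, k))‖ ≤ ‖ξ i‖ * 1 :=
    (ContinuousLinearMap.le_opNorm _ _).trans
      (mul_le_mul_of_nonneg_left (sum_ev_norm n M c hc) (norm_nonneg _))
  rw [hval, Complex.norm_real, Real.norm_of_nonneg (Finset.sum_nonneg fun _ _ => norm_nonneg _)] at hle
  have hge : (M : ℝ) * (1 / 4) ≤ ∑ k ∈ Finset.range M, ‖ξ i (ev (n, k))‖ := by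
    have := Finset.card_nsmul_le_sum (Finset.range M) (fun k => ‖ξ i (ev (n, k))‖) (1 / 4)
      (fun k _ => hfar k)
    simpa [nsmul_eq_mul] using this
  linarith

/-- There is a (commutative) approximately semi-amenable Banach algebra which is not boundedly
approximately semi-amenable. -/
theorem result : ∃ (A : Type) (_ : NonUnitalNormedCommRing A) (_ : NormedSpace ℂ A)
    (_ : IsScalarTower ℂ A A) (_ : SMulCommClass ℂ A A) (_ : CompleteSpace A),
    ApproxSemiAmenable.{u} A ∧ ¬ BddApproxSemiAmenable.{0} A :=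
  ⟨A, inferInstance, inferInstance, inferInstance, inferInstance, inferInstance,
    approxSemiAmenable_A, not_bdd_A⟩

end Pool.Agent.Results.MP_98688b_an.Unbounded
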